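import Pool.Agent.X155.BurnQuot

/-!
# MP_e69082_gt (Q1): a c-minimal group with a compact open normal subgroup whose discrete quotient
is not hereditarily minimal
-/

set_option autoImplicit false

namespace Pool.Agent.Results.MP_e69082_gt.OpenCentreQuotient

open Pool.Agent.TH54.BU

/-- `G` is a minimal topological group: Hausdorff, and no Hausdorff group topology on `G` is
strictly coarser than the given one. (For topologies, `t ≤ σ` means that `σ` is coarser
than `t`.) -/
def IsMinimalGroup (G : Type) [Group G] [t : TopologicalSpace G] : Prop :=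
  IsTopologicalGroup G ∧ T2Space G ∧
    ∀ σ : TopologicalSpace G, @IsTopologicalGroup G σ _ → @T2Space G σ → t ≤ σ → σ = t

/-- every subgroup of `G`, with the subspace topology, is minimal -/
def HereditarilyMinimal (G : Type) [Group G] [TopologicalSpace G] : Prop :=
  ∀ H : Subgroup G, IsMinimalGroup H

/-- every closed subgroup of `G`, with the subspace topology, is minimal -/
def CMinimal (G : Type) [Group G] [TopologicalSpace G] : Prop :=
  ∀ H : Subgroup G, IsClosed (H : Set G) → IsMinimalGroup H

/-- For every large enough prime `p` there is a Hausdorff topological group `G`, with a compact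
open normal subgroup `N` (the centre of `G`, topologically isomorphic to `ℤ_p`), such that `G` is
hereditarily minimal, in particular c-minimal, and such that the discrete group `G / N` is not
hereditarily minimal: `G / N` itself is not minimal. -/
theorem result : ∃ p0 : ℕ, ∀ (p : ℕ) [Fact p.Prime], p0 ≤ p →
    ∃ (G : Type) (_ : Group G) (_ : TopologicalSpace G) (_ : IsTopologicalGroup G)
      (N : Subgroup G) (_ : N.Normal),
      T2Space G ∧ IsCompact (N : Set G) ∧ IsOpen (N : Set G) ∧
      N = Subgroup.center G ∧ Nonempty (Multiplicative ℤ_[p] ≃ₜ* N) ∧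
      HereditarilyMinimal G ∧ CMinimal G ∧
      DiscreteTopology (G ⧸ N) ∧ ¬ IsMinimalGroup (G ⧸ N) ∧ ¬ HereditarilyMinimal (G ⧸ N) := by
  obtain ⟨p0, h⟩ := Pool.Agent.X155.BQ.exists_group
  refine ⟨p0, fun p hp hle => ?_⟩
  obtain ⟨M, hG, hTop, hTG, hT2, hopen, ⟨i⟩, ⟨e⟩, hmin, -, -, hcomm⟩ := h p hle
  have hHM : HereditarilyMinimal M := fun H =>
    ⟨inferInstance, inferInstance, fun σ h1 h2 h3 => hmin H σ h1 h2 h3⟩
  have hcomp : IsCompact (Subgroup.center M : Set M) := by
    have h1 : CompactSpace (Multiplicative ℤ_[p]) := by infer_instance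
    have h2 : CompactSpace (Subgroup.center M) := i.toHomeomorph.compactSpace
    exact isCompact_iff_compactSpace.2 h2
  have hdisc : DiscreteTopology (M ⧸ Subgroup.center M) := QuotientGroup.discreteTopology hopen
  have hnot : ¬ IsMinimalGroup (M ⧸ Subgroup.center M) := by
    rintro ⟨-, -, h3⟩
    obtain ⟨σ, h4, h5, h6⟩ := Pool.Agent.X155.BQ.exists_top e hcomm
    apply h6
    rw [h3 σ h4 h5 (by rw [hdisc.eq_bot]; exact bot_le), hdisc.eq_bot]
  refine ⟨M, hG, hTop, hTG, Subgroup.center M, inferInstance, hT2, hcomp, hopen, rfl, ⟨i⟩, hHM,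
    fun H _ => hHM H, hdisc, hnot, ?_⟩
  intro hH
  obtain ⟨-, -, h3⟩ := hH ⊤
  have hd2 : DiscreteTopology (⊤ : Subgroup (M ⧸ Subgroup.center M)) :=
    Topology.IsEmbedding.subtypeVal.discreteTopology
  have hd3 := hd2.eq_bot
  obtain ⟨σ, h4, h5, h6⟩ := Pool.Agent.X155.BQ.exists_top
    ((Subgroup.topEquiv (G := M ⧸ Subgroup.center M)).trans e) hcomm
  exact h6 ((h3 σ h4 h5 (hd3 ▸ bot_le)).trans hd3)

end Pool.Agent.Results.MP_e69082_gt.OpenCentreQuotient
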